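import Mathlib

/-!
# Projective monomial curves: combinatorics
-/

set_option autoImplicit false
set_option linter.all false

namespace Pool.Agent.X317.PMC

/-- the natural pseudo-Frobenius numbers -/
def IsPF (T : AddSubmonoid ℕ) (f : ℕ) : Prop := f ∉ T ∧ ∀ s ∈ T, s ≠ 0 → f + s ∈ T

/-- the data of the construction -/
structure Dat (T : AddSubmonoid ℕ) (c f0 N ρ δ D : ℕ) : Prop where
  hc : ∀ x, c ≤ x → x ∈ T
  c2 : 2 ≤ c
  hF : c - 1 ∉ T
  pf0 : IsPF T f0
  pfmin : ∀ f, IsPF T f → f0 ≤ f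
  hN : 2 * c ≤ N
  hρ : ρ + 1 = 2 * N + f0
  hδ : 10 * (N + c) ≤ δ
  hD : D + ρ = 2 * δ

/-- the second semigroup -/
def U (T : AddSubmonoid ℕ) (N ρ x : ℕ) : Prop := x = 0 ∨ (N ≤ x ∧ ∀ f, IsPF T f → x + f ≠ ρ)

/-- the elements of degree at most `m` not using `D` -/
def V (T : AddSubmonoid ℕ) (N ρ δ m α : ℕ) : Prop := α ∈ T ∧ ∃ τ, U T N ρ τ ∧ α + τ = m * δ

/-- the elements of degree at most `m` -/
def W (T : AddSubmonoid ℕ) (N ρ δ D m α : ℕ) : Prop :=
  ∃ i j α', i + j = m ∧ α = α' + j * D ∧ V T N ρ δ i α'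

/-- the exponents -/
def AA (T : AddSubmonoid ℕ) (N ρ δ D a : ℕ) : Prop := V T N ρ δ 1 a ∨ a = D

/-- the monomials that are not in the ideal of the two parameters -/
def Ap (T : AddSubmonoid ℕ) (N ρ δ D m α : ℕ) : Prop :=
  W T N ρ δ D m α ∧ (∀ m', m = m' + 1 → ¬ W T N ρ δ D m' α) ∧
    ∀ m' α', m = m' + 1 → α = α' + D → ¬ W T N ρ δ D m' α'

section

variable {T : AddSubmonoid ℕ} {c f0 N ρ δ D : ℕ} (h : Dat T c f0 N ρ δ D)

include h

theorem pf_lt {f : ℕ} (hf : f ∉ T) : f < c := by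
  by_contra h1
  exact hf (h.hc f (by omega))

theorem pf_pos {f : ℕ} (hf : f ∉ T) : 1 ≤ f := by
  rcases Nat.eq_zero_or_pos f with rfl | h1
  · exact absurd T.zero_mem hf
  · exact h1

theorem f0_lt : f0 < c := pf_lt h h.pf0.1

theorem f0_pos : 1 ≤ f0 := pf_pos h h.pf0.1

theorem isPF_F : IsPF T (c - 1) := ⟨h.hF, fun s hs hs0 => h.hc _ (by have := h.c2; omega)⟩

theorem U_large {x : ℕ} (hx : 2 * N ≤ x) : U T N ρ x := by
  right
  refine ⟨by omega, fun f hf => ?_⟩
  have := h.pfmin f hf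
  have := h.hρ
  omega

theorem U_add {x y : ℕ} (hx : U T N ρ x) (hy : U T N ρ y) : U T N ρ (x + y) := by
  rcases hx with rfl | hx
  · rwa [zero_add]
  rcases hy with rfl | hy
  · rw [add_zero]
    exact Or.inr hx
  · exact U_large h (by omega)

theorem V_add {i j α β : ℕ} (h1 : V T N ρ δ i α) (h2 : V T N ρ δ j β) :
    V T N ρ δ (i + j) (α + β) := by
  obtain ⟨ha, τ, hτ, ht⟩ := h1
  obtain ⟨hb, σ, hσ, hs⟩ := h2
  refine ⟨T.add_mem ha hb, τ + σ, U_add h hτ hσ, ?_⟩
  rw [add_mul]
  omega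

theorem V_zero : V T N ρ δ 1 0 :=
  ⟨T.zero_mem, δ, U_large h (by have := h.hδ; omega), by omega⟩

theorem V_delta : V T N ρ δ 1 δ :=
  ⟨h.hc _ (by have := h.hδ; omega), 0, Or.inl rfl, by omega⟩

theorem V_le {m α : ℕ} (h1 : V T N ρ δ m α) : α ≤ m * δ := by
  obtain ⟨_, τ, _, ht⟩ := h1
  omega

theorem V_eq_zero {α : ℕ} (h1 : V T N ρ δ 0 α) : α = 0 := by
  have := V_le h h1
  omega

theorem V_split {m α : ℕ} (h1 : V T N ρ δ (m + 2) α) :
    ∃ a β, V T N ρ δ 1 a ∧ V T N ρ δ (m + 1) β ∧ α = a + β := by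
  obtain ⟨hα, τ, hτ, ht⟩ := h1
  have hδ := h.hδ
  have hmul : (m + 2) * δ = (m + 1) * δ + δ := by ring
  by_cases h2 : δ + c ≤ α
  · refine ⟨δ, α - δ, V_delta h, ⟨h.hc _ (by omega), τ, hτ, by omega⟩, by omega⟩
  by_cases h3 : δ + 2 * N ≤ τ
  · exact ⟨0, α, V_zero h, ⟨hα, τ - δ, U_large h (by omega), by omega⟩, by omega⟩
  have hm : m = 0 := by
    by_contra hm
    have h4 : 3 * δ ≤ (m + 2) * δ := Nat.mul_le_mul_right δ (by omega)
    omega
  subst hm
  have h5 : (0 + 2) * δ = 2 * δ := by ring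
  have h6 : (0 + 1) * δ = δ := by ring
  refine ⟨2 * N + c, α - (2 * N + c), ⟨h.hc _ (by omega), δ - (2 * N + c), U_large h (by omega), by omega⟩,
    ⟨h.hc _ (by omega), δ - (α - (2 * N + c)), U_large h (by omega), by omega⟩, by omega⟩

theorem V_ind {P : ℕ → ℕ → Prop} (h0 : P 0 0)
    (hs : ∀ m α a, AA T N ρ δ D a → P m α → P (m + 1) (α + a)) :
    ∀ m α, V T N ρ δ m α → P m α := by
  intro m
  induction m with
  | zero =>
    intro α hα
    rw [V_eq_zero h hα]
    exact h0
  | succ m ih =>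
    intro α hα
    rcases m with _ | m
    · have := hs 0 0 α (Or.inl hα) h0
      rwa [zero_add, zero_add] at this
    · obtain ⟨a, β, ha, hβ, rfl⟩ := V_split h hα
      rw [add_comm a β]
      exact hs _ _ _ (Or.inl ha) (ih β hβ)

theorem W_ind {P : ℕ → ℕ → Prop} (h0 : P 0 0)
    (hs : ∀ m α a, AA T N ρ δ D a → P m α → P (m + 1) (α + a)) :
    ∀ m α, W T N ρ δ D m α → P m α := by
  rintro m α ⟨i, j, α', rfl, rfl, hV⟩
  have h1 := V_ind h h0 hs i α' hV
  clear hV
  induction j with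
  | zero => rwa [zero_mul, add_zero, add_zero]
  | succ j ih =>
    have := hs _ _ D (Or.inr rfl) ih
    have h2 : α' + j * D + D = α' + (j + 1) * D := by ring
    rw [h2] at this
    exact this

theorem W_zero : W T N ρ δ D 0 0 :=
  ⟨0, 0, 0, rfl, by omega, T.zero_mem, 0, Or.inl rfl, by omega⟩

theorem W_step {m α a : ℕ} (ha : AA T N ρ δ D a) (h1 : W T N ρ δ D m α) :
    W T N ρ δ D (m + 1) (α + a) := by
  obtain ⟨i, j, α', rfl, rfl, hV⟩ := h1
  rcases ha with ha | rfl
  · exact ⟨i + 1, j, α' + a, by omega, by omega, V_add h hV ha⟩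
  · refine ⟨i, j + 1, α', by omega, ?_, hV⟩
    ring

theorem W_succ {m α : ℕ} (h1 : W T N ρ δ D m α) : W T N ρ δ D (m + 1) α := by
  have := W_step h (Or.inl (V_zero h)) h1
  rwa [add_zero] at this

theorem D_mem : D ∈ T := h.hc _ (by have := h.hδ; have := h.hD; have := h.hρ; have := f0_lt h; omega)

theorem W_mem {m α : ℕ} (h1 : W T N ρ δ D m α) : α ∈ T := by
  obtain ⟨i, j, α', rfl, rfl, hV⟩ := h1
  refine T.add_mem hV.1 ?_
  rw [← smul_eq_mul]
  exact T.nsmul_mem (D_mem h) j

theorem D_ge : δ + 6 * (N + c) ≤ D := by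
  have := h.hδ; have := h.hD; have := h.hρ; have := f0_lt h
  omega

theorem W_le {m α : ℕ} (h1 : W T N ρ δ D m α) : α ≤ m * D := by
  obtain ⟨i, j, α', rfl, rfl, hV⟩ := h1
  have h2 := V_le h hV
  have h3 : i * δ ≤ i * D := Nat.mul_le_mul_left i (by have := D_ge h; omega)
  rw [add_mul]
  omega

/-- **The Cohen-Macaulay property.** -/
theorem cm {m α : ℕ} (h1 : W T N ρ δ D m (α + D)) (hα : α ∈ T) :
    ∃ m', m = m' + 1 ∧ W T N ρ δ D m' α := by
  obtain ⟨i, j, α', rfl, h2, hV⟩ := h1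
  rcases j with _ | j
  · rw [zero_mul, add_zero] at h2
    rw [← h2] at hV
    obtain ⟨_, τ, hτ, ht⟩ := hV
    have hD := D_ge h
    rcases i with _ | i
    · exfalso
      have := h.hδ
      have := h.c2
      omega
    · refine ⟨i, by omega, i, 0, α, by omega, by omega, hα, τ + (D - δ),
        U_add h hτ (U_large h (by omega)), ?_⟩
      have : (i + 1) * δ = i * δ + δ := by ring
      omega
  · refine ⟨i + j, by omega, i, j, α', rfl, ?_, hV⟩
    have : (j + 1) * D = j * D + D := by ring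
    omega

/-- outside of the translate of `T`, the element `D` is not used -/
theorem W_V {m α : ℕ} (h1 : W T N ρ δ D m α) (hα : ∀ β ∈ T, α ≠ β + D) : V T N ρ δ m α := by
  obtain ⟨i, j, α', rfl, h2, hV⟩ := h1
  rcases j with _ | j
  · rw [zero_mul, add_zero] at h2
    rw [h2]
    exact hV
  · exfalso
    refine hα (α' + j * D) ?_ ?_
    · exact T.add_mem hV.1 (by rw [← smul_eq_mul]; exact T.nsmul_mem (D_mem h) j)
    · rw [h2]
      ring

theorem V_W {m α : ℕ} (h1 : V T N ρ δ m α) : W T N ρ δ D m α :=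
  ⟨m, 0, α, by omega, by omega, h1⟩

theorem V_succ {m α : ℕ} (h1 : V T N ρ δ m α) : V T N ρ δ (m + 1) α := by
  have := V_add h h1 (V_zero h)
  rwa [add_zero] at this

theorem Ap_iff {m α : ℕ} : Ap T N ρ δ D m α ↔ V T N ρ δ m α ∧ (∀ β ∈ T, α ≠ β + D) ∧
    ∀ m', m = m' + 1 → ¬ V T N ρ δ m' α := by
  constructor
  · rintro ⟨h1, h2, h3⟩
    have h4 : ∀ β ∈ T, α ≠ β + D := by
      rintro β hβ rfl
      obtain ⟨m', rfl, hW⟩ := cm h h1 hβ
      exact h3 m' β rfl rfl hW
    exact ⟨W_V h h1 h4, h4, fun m' hm' hV => h2 m' hm' (V_W h hV)⟩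
  · rintro ⟨h1, h2, h3⟩
    refine ⟨V_W h h1, fun m' hm' hW => h3 m' hm' (W_V h hW h2), ?_⟩
    rintro m' α' rfl rfl hW
    exact h2 α' (W_mem h hW) rfl

/-- The pseudo-Frobenius elements are in the set. -/
theorem Ap_pf {f : ℕ} (hf : IsPF T f) : Ap T N ρ δ D 3 (D + f) := by
  have hfc := pf_lt h hf.1
  have hf1 := pf_pos h hf.1
  have hD := D_ge h
  have hD2 := h.hD
  have hδ := h.hδ
  have hρ := h.hρ
  have hN := h.hN
  have hf0 := h.pfmin f hf
  have hf0c := f0_lt h
  rw [Ap_iff h]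
  refine ⟨⟨h.hc _ (by omega), 3 * δ - (D + f), U_large h (by omega), by omega⟩, ?_, ?_⟩
  · intro β hβ h1
    have : β = f := by omega
    exact hf.1 (this ▸ hβ)
  · rintro m' hm' ⟨_, τ, hτ, ht⟩
    have : m' = 2 := by omega
    subst this
    have h2 : τ + f = ρ := by omega
    rcases hτ with rfl | ⟨_, hτ⟩
    · omega
    · exact hτ f hf h2

/-- The pseudo-Frobenius elements are maximal. -/
theorem pf_max {f a : ℕ} (hf : IsPF T f) (ha : AA T N ρ δ D a) (ha0 : a ≠ 0) :
    W T N ρ δ D 3 (f + a) := by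
  have haT : a ∈ T := by
    rcases ha with ha | rfl
    · exact ha.1
    · exact D_mem h
  have h1 : W T N ρ δ D 4 (D + f + a) := W_step h ha (Ap_pf h hf).1
  have h2 : D + f + a = (f + a) + D := by ring
  rw [h2] at h1
  obtain ⟨m', hm', hW⟩ := cm h h1 (hf.2 a haT ha0)
  have : m' = 3 := by omega
  rwa [this] at hW

/-- every gap is below a pseudo-Frobenius number -/
theorem exists_pf {g : ℕ} (hg : g ∉ T) : ∃ f s, IsPF T f ∧ s ∈ T ∧ f = g + s := by
  classical
  by_contra hcon
  have hall : ∀ k : ℕ, ∃ s ∈ T, k ≤ s ∧ g + s ∉ T := by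
    intro k
    induction k with
    | zero => exact ⟨0, T.zero_mem, le_rfl, by rwa [add_zero]⟩
    | succ k ih =>
      obtain ⟨s, hs, hks, hgs⟩ := ih
      have h1 : ¬ IsPF T (g + s) := fun h2 => hcon ⟨g + s, s, h2, hs, rfl⟩
      have h3 : ∃ r ∈ T, r ≠ 0 ∧ g + s + r ∉ T := by
        by_contra h4
        push Not at h4
        exact h1 ⟨hgs, fun r hr hr0 => h4 r hr hr0⟩
      obtain ⟨r, hr, hr0, hgr⟩ := h3
      exact ⟨s + r, T.add_mem hs hr, by omega, by rwa [← add_assoc]⟩
  obtain ⟨s, _, hs, hgs⟩ := hall c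
  exact hgs (h.hc _ (by omega))

/-- the key property of the second semigroup -/
theorem key {z : ℕ} (hz : z ∈ T) (h1 : ∀ x, U T N ρ x → x + z ≠ ρ) :
    ∃ f x, IsPF T f ∧ U T N ρ x ∧ z = x + f := by
  have hρ := h.hρ
  have hN := h.hN
  have hc2 := h.c2
  have hf0c := f0_lt h
  have hf01 := f0_pos h
  by_cases h2 : ρ < z
  · exact ⟨f0, z - f0, h.pf0, U_large h (by omega), by omega⟩
  have h3 : z ≠ ρ := fun h4 => h1 0 (Or.inl rfl) (by omega)
  by_cases h4 : N ≤ ρ - z
  · exfalso
    refine h1 (ρ - z) (Or.inr ⟨h4, fun f hf h5 => ?_⟩) (by omega)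
    have : f = z := by omega
    exact hf.1 (this ▸ hz)
  by_cases h5 : ∀ f, IsPF T f → z - f0 + f ≠ ρ
  · exact ⟨f0, z - f0, h.pf0, Or.inr ⟨by omega, h5⟩, by omega⟩
  push Not at h5
  obtain ⟨f, hf, hf'⟩ := h5
  have hfc := pf_lt h hf.1
  refine ⟨c - 1, z - (c - 1), isPF_F h, Or.inr ⟨by omega, fun f' hf' h6 => ?_⟩, by omega⟩
  have hfc' := pf_lt h hf'.1
  omega

/-- **All the other elements are not maximal.** -/
theorem not_max {m α : ℕ} (hA : Ap T N ρ δ D m α) (hne : ∀ f, IsPF T f → α ≠ D + f) :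
    ∃ a, V T N ρ δ 1 a ∧ a ≠ 0 ∧ Ap T N ρ δ D (m + 1) (α + a) := by
  have hD := D_ge h
  have hD2 := h.hD
  have hδ := h.hδ
  have hρ := h.hρ
  have hN := h.hN
  have hc2 := h.c2
  have hf0c := f0_lt h
  have hf01 := f0_pos h
  obtain ⟨hV, hT, hm⟩ := (Ap_iff h).1 hA
  by_cases h1 : ∀ β ∈ T, α + δ ≠ β + D
  · -- case I
    refine ⟨δ, V_delta h, by omega, (Ap_iff h).2 ⟨V_add h hV (V_delta h), h1, ?_⟩⟩
    rintro m' hm' ⟨_, τ, hτ, ht⟩
    have : m' = m := by omega
    subst this
    rcases m' with _ | m'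
    · omega
    · refine hm m' rfl ⟨hV.1, τ, hτ, ?_⟩
      have : (m' + 1) * δ = m' * δ + δ := by ring
      omega
  push Not at h1
  obtain ⟨z, hz, hz'⟩ := h1
  -- α + δ = z + D
  by_cases h2 : D ≤ α
  · -- case A
    obtain ⟨g, rfl⟩ := Nat.exists_eq_add_of_le h2
    have hg : g ∉ T := fun h3 => hT g h3 (by omega)
    have hgc := pf_lt h hg
    obtain ⟨f, s, hf, hs, hfs⟩ := exists_pf h hg
    have hfc := pf_lt h hf.1
    have hs0 : s ≠ 0 := by
      rintro rfl
      exact hne f hf (by omega)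
    have hV2 : V T N ρ δ 2 (D + g) := by
      refine ⟨hV.1, ρ - g, Or.inr ⟨by omega, fun f' hf' h4 => ?_⟩, by omega⟩
      exact hne f' hf' (by omega)
    have hm2 : m = 2 := by
      rcases Nat.lt_trichotomy m 2 with h3 | h3 | h3
      · exfalso
        have h4 := V_le h hV
        have h5 : m * δ ≤ 1 * δ := Nat.mul_le_mul_right δ (by omega)
        omega
      · exact h3
      · exfalso
        refine hm (m - 1) (by omega) ?_
        have h4 : ∀ k, V T N ρ δ (k + 2) (D + g) := by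
          intro k
          induction k with
          | zero => exact hV2
          | succ k ih => exact V_succ h ih
        have h5 := h4 (m - 3)
        have h6 : m - 3 + 2 = m - 1 := by omega
        rwa [h6] at h5
    subst hm2
    refine ⟨s, ⟨hs, δ - s, U_large h (by omega), by omega⟩, hs0, ?_⟩
    have h3 := Ap_pf h hf
    have h4 : D + g + s = D + f := by omega
    rw [h4]
    exact h3
  · -- case B
    have hzδ : z < δ := by omega
    by_cases h3 : ∀ x, U T N ρ x → x + z ≠ ρ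
    · -- B2
      have hV1 : ¬ V T N ρ δ 1 α := by
        rintro ⟨_, τ, hτ, ht⟩
        exact h3 τ hτ (by omega)
      have hV2 : V T N ρ δ 2 α := ⟨hV.1, 2 * δ - α, U_large h (by omega), by omega⟩
      have hm2 : m = 2 := by
        rcases Nat.lt_trichotomy m 2 with h4 | h4 | h4
        · exfalso
          have : m = 0 ∨ m = 1 := by omega
          rcases this with rfl | rfl
          · have := V_eq_zero h hV
            omega
          · exact hV1 hV
        · exact h4
        · exfalso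
          refine hm (m - 1) (by omega) ?_
          have h4 : ∀ k, V T N ρ δ (k + 2) α := by
            intro k
            induction k with
            | zero => exact hV2
            | succ k ih => exact V_succ h ih
          have h5 := h4 (m - 3)
          have h6 : m - 3 + 2 = m - 1 := by omega
          rwa [h6] at h5
      subst hm2
      by_cases hy : D - α < c
      · refine ⟨D - α + (c - 1), ⟨h.hc _ (by omega), δ - (D - α + (c - 1)),
          U_large h (by omega), by omega⟩, by omega, ?_⟩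
        have h4 : α + (D - α + (c - 1)) = D + (c - 1) := by omega
        rw [h4]
        exact Ap_pf h (isPF_F h)
      · obtain ⟨f, x, hf, hx, hzf⟩ := key h hz h3
        have hfc := pf_lt h hf.1
        refine ⟨D - α + f, ⟨h.hc _ (by omega), x, hx, by omega⟩, by omega, ?_⟩
        have h4 : α + (D - α + f) = D + f := by omega
        rw [h4]
        exact Ap_pf h hf
    · -- B1
      push Not at h3
      obtain ⟨x, hx, hxz⟩ := h3
      have hV1 : V T N ρ δ 1 α := ⟨hV.1, x, hx, by omega⟩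
      have hm1 : m = 1 := by
        rcases Nat.lt_trichotomy m 1 with h4 | h4 | h4
        · exfalso
          have : m = 0 := by omega
          subst this
          have := V_eq_zero h hV
          omega
        · exact h4
        · exfalso
          refine hm (m - 1) (by omega) ?_
          have h4 : ∀ k, V T N ρ δ (k + 1) α := by
            intro k
            induction k with
            | zero => exact hV1
            | succ k ih => exact V_succ h ih
          have h5 := h4 (m - 2)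
          have h6 : m - 2 + 1 = m - 1 := by omega
          rwa [h6] at h5
      subst hm1
      refine ⟨δ - (ρ + c + 1), ⟨h.hc _ (by omega), ρ + c + 1, U_large h (by omega), by omega⟩,
        by omega, (Ap_iff h).2 ⟨?_, ?_, ?_⟩⟩
      · exact V_add h hV1 ⟨h.hc _ (by omega), ρ + c + 1, U_large h (by omega), by omega⟩
      · intro β hβ h4
        omega
      · rintro m' hm' hV'
        have := V_le h hV'
        have : m' = 1 := by omega
        subst this
        omega

/-- the semigroup generated by the exponents -/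
theorem closure_eq (S : Set ℕ) (hS : ∀ a, a ∈ S ↔ AA T N ρ δ D a) :
    AddSubmonoid.closure S = T := by
  have hD := D_ge h
  have hδ := h.hδ
  have hρ := h.hρ
  have hN := h.hN
  have hc2 := h.c2
  have hf0c := f0_lt h
  apply le_antisymm
  · rw [AddSubmonoid.closure_le]
    intro a ha
    rcases (hS a).1 ha with ha | rfl
    · exact ha.1
    · exact D_mem h
  · intro x hx
    induction x using Nat.strong_induction_on with
    | _ x ih =>
      by_cases h1 : x + 2 * N ≤ δ
      · exact AddSubmonoid.subset_closure ((hS x).2 (Or.inl ⟨hx, δ - x, U_large h (by omega), by omega⟩))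
      · have h2 : c ∈ AddSubmonoid.closure S := AddSubmonoid.subset_closure
          ((hS c).2 (Or.inl ⟨h.hc _ le_rfl, δ - c, U_large h (by omega), by omega⟩))
        have h3 := ih (x - c) (by omega) (h.hc _ (by omega))
        have h4 := AddSubmonoid.add_mem _ h2 h3
        have h5 : c + (x - c) = x := by omega
        rwa [h5] at h4

theorem AA_le {a : ℕ} (ha : AA T N ρ δ D a) : a ≤ D := by
  have hD := D_ge h
  rcases ha with ha | rfl
  · have := V_le h ha
    omega
  · exact le_rfl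

end

end Pool.Agent.X317.PMC
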