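import Mathlib
import Pool.Agent.X317.Sem.Perm
import Pool.Agent.X317.Sem.Semi
import Pool.Agent.X317.PMC.Comb

/-!
# Projective monomial curves: the Koszul homology
-/

set_option autoImplicit false
set_option linter.all false

open Finset Pool.Agent.X317.Kos Pool.Agent.X317.Sem MvPolynomial

namespace Pool.Agent.X317.PMC

/-- the exponent of `u ^ α * v ^ β` -/
noncomputable def ex (α β : ℕ) : Fin 2 →₀ ℕ := Finsupp.single 0 α + Finsupp.single 1 β

theorem ex_zero (α β : ℕ) : ex α β 0 = α := by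
  unfold ex
  rw [Finsupp.add_apply, Finsupp.single_eq_same, Finsupp.single_eq_of_ne (by decide), add_zero]

theorem ex_one (α β : ℕ) : ex α β 1 = β := by
  unfold ex
  rw [Finsupp.add_apply, Finsupp.single_eq_same, Finsupp.single_eq_of_ne (by decide), zero_add]

theorem ext2 {e f : Fin 2 →₀ ℕ} (h0 : e 0 = f 0) (h1 : e 1 = f 1) : e = f := by
  ext i
  fin_cases i
  · exact h0
  · exact h1

theorem ex_eta (e : Fin 2 →₀ ℕ) : ex (e 0) (e 1) = e := ext2 (ex_zero _ _) (ex_one _ _)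

theorem ex_add (α β α' β' : ℕ) : ex α β + ex α' β' = ex (α + α') (β + β') := by
  refine ext2 ?_ ?_
  · rw [Finsupp.add_apply, ex_zero, ex_zero, ex_zero]
  · rw [Finsupp.add_apply, ex_one, ex_one, ex_one]

theorem ex_inj {α β α' β' : ℕ} (h : ex α β = ex α' β') : α = α' ∧ β = β' := by
  constructor
  · rw [← ex_zero α β, h, ex_zero]
  · rw [← ex_one α β, h, ex_one]

theorem ex_le {α β α' β' : ℕ} : ex α' β' ≤ ex α β ↔ α' ≤ α ∧ β' ≤ β := by
  constructor
  · intro h
    have h0 := h 0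
    have h1 := h 1
    rw [ex_zero, ex_zero] at h0
    rw [ex_one, ex_one] at h1
    exact ⟨h0, h1⟩
  · rintro ⟨h0, h1⟩ i
    fin_cases i
    · show ex α' β' 0 ≤ ex α β 0
      rwa [ex_zero, ex_zero]
    · show ex α' β' 1 ≤ ex α β 1
      rwa [ex_one, ex_one]

variable {k : Type*} [Field k]

theorem coeff_mono_mul (α β α' β' : ℕ) (g : MvPolynomial (Fin 2) k) :
    coeff (ex α β) (monomial (ex α' β') 1 * g) =
      if α' ≤ α ∧ β' ≤ β then coeff (ex (α - α') (β - β')) g else 0 := by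
  rw [coeff_monomial_mul']
  by_cases h : α' ≤ α ∧ β' ≤ β
  · rw [if_pos h, if_pos (ex_le.2 h), one_mul]
    congr 1
    refine ext2 ?_ ?_
    · rw [Finsupp.tsub_apply, ex_zero, ex_zero, ex_zero]
    · rw [Finsupp.tsub_apply, ex_one, ex_one, ex_one]
  · rw [if_neg h, if_neg (fun h1 => h (ex_le.1 h1))]

/-- the exponents of the semigroup of the curve -/
def QQ (T : AddSubmonoid ℕ) (N ρ δ D α β : ℕ) : Prop := ∃ m, α + β = m * D ∧ W T N ρ δ D m α

variable {T : AddSubmonoid ℕ} {c f0 N ρ δ D : ℕ} {n : ℕ}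
variable {A M : Type*} [CommRing A] [Algebra k A] [AddCommGroup M] [Module A M]
  [Module k M] [IsScalarTower k A M]

/-- the situation -/
structure Sit (T : AddSubmonoid ℕ) (c f0 N ρ δ D : ℕ) (y : Fin (n + 2) → A) (a : Fin (n + 2) → ℕ)
    (ι : M →ₗ[k] MvPolynomial (Fin 2) k) : Prop where
  dat : Dat T c f0 N ρ δ D
  inj : Function.Injective ι
  range : ∀ g : MvPolynomial (Fin 2) k, (∃ m, ι m = g) ↔ ∀ α β, coeff (ex α β) g ≠ 0 → QQ T N ρ δ D α β
  smul : ∀ v m, ι (y v • m) = monomial (ex (a v) (D - a v)) 1 * ι m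
  a0 : a 0 = 0
  a1 : a 1 = D
  aj : ∀ j : Fin n, AA T N ρ δ D (a j.succ.succ) ∧ a j.succ.succ ≠ 0
  surj : ∀ b, AA T N ρ δ D b → b ≠ 0 → b ≠ D → ∃ j : Fin n, a j.succ.succ = b

section

variable {y : Fin (n + 2) → A} {a : Fin (n + 2) → ℕ} {ι : M →ₗ[k] MvPolynomial (Fin 2) k}
  (S : Sit T c f0 N ρ δ D y a ι)

include S

theorem D_pos : 0 < D := by
  have := D_ge S.dat
  have := S.dat.hδ
  have := S.dat.c2
  omega

theorem mul_D_inj {m m' : ℕ} (h : m * D = m' * D) : m = m' :=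
  Nat.eq_of_mul_eq_mul_right (D_pos S) h

theorem QQ_iff {m α β : ℕ} (h : α + β = m * D) : QQ T N ρ δ D α β ↔ W T N ρ δ D m α := by
  constructor
  · rintro ⟨m', hm', hW⟩
    rwa [mul_D_inj S (hm'.symm.trans h)] at hW
  · intro hW
    exact ⟨m, h, hW⟩

theorem mem_range (m : M) (α β : ℕ) (h : coeff (ex α β) (ι m) ≠ 0) : QQ T N ρ δ D α β :=
  (S.range (ι m)).1 ⟨m, rfl⟩ α β h

theorem mono_mem (α β : ℕ) (r : k) (h : QQ T N ρ δ D α β) : ∃ m, ι m = monomial (ex α β) r := by
  classical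
  rw [S.range]
  intro α' β' h'
  rw [coeff_monomial] at h'
  split_ifs at h' with h1
  · obtain ⟨rfl, rfl⟩ := ex_inj h1
    exact h
  · exact absurd rfl h'

theorem smul0 (m : M) : ι (y 0 • m) = monomial (ex 0 D) 1 * ι m := by
  rw [S.smul, S.a0, Nat.sub_zero]

theorem smul1 (m : M) : ι (y 1 • m) = monomial (ex D 0) 1 * ι m := by
  rw [S.smul, S.a1, Nat.sub_self]

/-- the first parameter is regular -/
theorem reg0 (m : M) (hm : y 0 • m = 0) : m = 0 := by
  apply S.inj
  have h1 := smul0 S m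
  rw [hm, map_zero] at h1
  rw [map_zero]
  refine (mul_eq_zero.1 h1.symm).resolve_left ?_
  intro h2
  rw [monomial_eq_zero] at h2
  exact one_ne_zero h2

theorem div0 (m : M) (h : ∀ α β, coeff (ex α β) (ι m) ≠ 0 → D ≤ β ∧ QQ T N ρ δ D α (β - D)) :
    ∃ m', m = y 0 • m' := by
  classical
  obtain ⟨g, hg⟩ : monomial (ex 0 D) (1 : k) ∣ ι m := by
    rw [monomial_one_dvd_iff_modMonomial_eq_zero]
    ext e
    rw [coeff_zero]
    by_cases h1 : ex 0 D ≤ e
    · exact coeff_modMonomial_of_le _ h1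
    · rw [coeff_modMonomial_of_not_le _ h1]
      by_contra h2
      rw [← ex_eta e] at h2 h1
      exact h1 (ex_le.2 ⟨Nat.zero_le _, (h _ _ h2).1⟩)
  obtain ⟨m', hm'⟩ := (S.range g).2 (by
    intro α β h1
    have h2 : coeff (ex α (β + D)) (ι m) ≠ 0 := by
      rw [hg, coeff_mono_mul, if_pos ⟨Nat.zero_le _, by omega⟩]
      rwa [Nat.sub_zero, Nat.add_sub_cancel]
    have h3 := (h _ _ h2).2
    rwa [Nat.add_sub_cancel] at h3)
  refine ⟨m', S.inj ?_⟩
  rw [smul0 S, hm', ← hg]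

/-- the second parameter is regular modulo the first -/
theorem reg1 (m m' : M) (hm : y 1 • m = y 0 • m') : ∃ m'', m = y 0 • m'' := by
  refine div0 S m fun α β h => ?_
  obtain ⟨d, hd, hW⟩ := mem_range S m α β h
  have h1 : coeff (ex (α + D) β) (ι (y 1 • m)) ≠ 0 := by
    rw [smul1 S, coeff_mono_mul, if_pos ⟨by omega, Nat.zero_le _⟩, Nat.add_sub_cancel, Nat.sub_zero]
    exact h
  rw [hm, smul0 S, coeff_mono_mul] at h1
  split_ifs at h1 with h2
  · obtain ⟨d', hd', hW'⟩ := mem_range S m' _ _ h1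
    rw [Nat.sub_zero] at hW' hd'
    have h3 : d' = d := by
      apply mul_D_inj S
      omega
    subst h3
    obtain ⟨d'', rfl, hW''⟩ := cm S.dat hW' (W_mem S.dat hW)
    refine ⟨h2.2, d'', ?_, hW''⟩
    have h4 : (d'' + 1) * D = d'' * D + D := by ring
    omega
  · exact absurd rfl h1

/-- coefficients vanishing on the multiples of the first parameter -/
theorem cf0 {α β d : ℕ} (hd : α + β = d * D) (hA : Ap T N ρ δ D d α) (m : M) :
    coeff (ex α β) (ι (y 0 • m)) = 0 := by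
  rw [smul0 S, coeff_mono_mul]
  split_ifs with h
  · by_contra h1
    obtain ⟨d', hd', hW⟩ := mem_range S m _ _ h1
    rw [Nat.sub_zero] at hd' hW
    refine hA.2.1 d' (mul_D_inj S ?_) hW
    rw [add_mul, one_mul]
    omega
  · rfl

theorem cf1 {α β d : ℕ} (hd : α + β = d * D) (hA : Ap T N ρ δ D d α) (m : M) :
    coeff (ex α β) (ι (y 1 • m)) = 0 := by
  rw [smul1 S, coeff_mono_mul]
  split_ifs with h
  · by_contra h1
    obtain ⟨d', hd', hW⟩ := mem_range S m _ _ h1
    refine hA.2.2 d' (α - D) (mul_D_inj S ?_) (by omega) hW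
    rw [add_mul, one_mul]
    omega
  · rfl

end

theorem Ap_unique (h : Dat T c f0 N ρ δ D) {m m' α : ℕ} (h1 : Ap T N ρ δ D m α)
    (h2 : Ap T N ρ δ D m' α) : m = m' := by
  have key : ∀ {m m' : ℕ}, Ap T N ρ δ D m α → Ap T N ρ δ D m' α → ¬ m < m' := by
    intro m m' h1 h2 hlt
    have h3 : ∀ j, W T N ρ δ D (m + j) α := by
      intro j
      induction j with
      | zero => exact h1.1
      | succ j ih => exact W_succ h ih
    refine h2.2.1 (m' - 1) (by omega) ?_
    have h4 := h3 (m' - 1 - m)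
    have h5 : m + (m' - 1 - m) = m' - 1 := by omega
    rwa [h5] at h4
  have := key h1 h2
  have := key h2 h1
  omega

/-- **The type.** -/
theorem finrank_type {y : Fin (n + 2) → A} {a : Fin (n + 2) → ℕ}
    {ι : M →ₗ[k] MvPolynomial (Fin 2) k} (S : Sit T c f0 N ρ δ D y a ι) (F : Finset ℕ)
    (hF : ∀ f, f ∈ F ↔ IsPF T f) :
    Module.finrank k (Homology y M n) = F.card := by
  classical
  let p : Submodule A M := LinearMap.range (LinearMap.lsmul A M (y 0))
  have hp : ∀ m, m ∈ p ↔ ∃ m', m = y 0 • m' := by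
    intro m
    rw [LinearMap.mem_range]
    exact ⟨fun ⟨y, hy⟩ => ⟨y, hy.symm⟩, fun ⟨y, hy⟩ => ⟨y, hy.symm⟩⟩
  have hker : ∀ m, p.mkQ m = 0 ↔ ∃ m', m = y 0 • m' := by
    intro m
    rw [Submodule.mkQ_apply, Submodule.Quotient.mk_eq_zero, hp]
  rw [finrank_reduce p.mkQ y (reg0 S) (Submodule.mkQ_surjective p) hker]
  let q : Submodule A (M ⧸ p) := LinearMap.range (LinearMap.lsmul A (M ⧸ p) (y 1))
  have hq : ∀ m, m ∈ q ↔ ∃ m', m = y 1 • m' := by
    intro m
    rw [LinearMap.mem_range]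
    exact ⟨fun ⟨y, hy⟩ => ⟨y, hy.symm⟩, fun ⟨y, hy⟩ => ⟨y, hy.symm⟩⟩
  have hker' : ∀ m, q.mkQ m = 0 ↔ ∃ m', m = y 1 • m' := by
    intro m
    rw [Submodule.mkQ_apply, Submodule.Quotient.mk_eq_zero, hq]
  have hreg' : ∀ m : M ⧸ p, y 1 • m = 0 → m = 0 := by
    intro m hm
    obtain ⟨m, rfl⟩ := Submodule.mkQ_surjective p m
    rw [← map_smul, hker] at hm
    obtain ⟨m', hm'⟩ := hm
    exact (hker m).2 (reg1 S m m' hm')
  rw [finrank_reduce q.mkQ (fun j => y j.succ) hreg' (Submodule.mkQ_surjective q) hker',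
    Pool.Agent.X317.Sem.finrank_top]
  -- the class of an element
  have hzero : ∀ m : M, q.mkQ (p.mkQ m) = 0 ↔ ∃ m0 m1, m = y 0 • m0 + y 1 • m1 := by
    intro m
    rw [hker']
    constructor
    · rintro ⟨m', hm'⟩
      obtain ⟨m1, rfl⟩ := Submodule.mkQ_surjective p m'
      rw [← map_smul, ← sub_eq_zero, ← map_sub, hker] at hm'
      obtain ⟨m0, hm0⟩ := hm'
      exact ⟨m0, m1, by rw [← hm0, sub_add_cancel]⟩
    · rintro ⟨m0, m1, rfl⟩
      refine ⟨p.mkQ m1, ?_⟩
      rw [map_add, (hker _).2 ⟨m0, rfl⟩, zero_add, map_smul]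
  -- the functionals
  let cf : ℕ → ℕ → (M →ₗ[k] k) := fun α β => (lcoeff k (ex α β)) ∘ₗ ι
  have hcf : ∀ α β m, cf α β m = coeff (ex α β) (ι m) := fun α β m => rfl
  have hf3 : ∀ f ∈ F, (D + f) + (2 * D - f) = 3 * D := by
    intro f hf
    have := pf_lt S.dat ((hF f).1 hf).1
    have := D_ge S.dat
    omega
  have h0 : ∀ f : ↥F, ∀ m ∈ p, cf (D + f) (2 * D - f) m = 0 := by
    intro f m hm
    obtain ⟨m', rfl⟩ := (hp m).1 hm
    rw [hcf]
    exact cf0 S (hf3 f f.2) (Ap_pf S.dat ((hF f).1 f.2)) m'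
  have h1 : ∀ f : ↥F, ∀ m ∈ q, descend p (cf (D + f) (2 * D - f)) (h0 f) m = 0 := by
    intro f m hm
    obtain ⟨m', rfl⟩ := (hq m).1 hm
    obtain ⟨m', rfl⟩ := Submodule.mkQ_surjective p m'
    rw [← map_smul, descend_mk, hcf]
    exact cf1 S (hf3 f f.2) (Ap_pf S.dat ((hF f).1 f.2)) m'
  let Ψ : ↥(soc (M := (M ⧸ p) ⧸ q) k (fun j : Fin n => y j.succ.succ)) →ₗ[k] (↥F → k) :=
    (LinearMap.pi fun f : ↥F => descend q (descend p (cf (D + f) (2 * D - f)) (h0 f)) (h1 f)) ∘ₗ
      Submodule.subtype _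
  have hΨ : ∀ (m : M) (hm : q.mkQ (p.mkQ m) ∈
      soc (M := (M ⧸ p) ⧸ q) k (fun j : Fin n => y j.succ.succ)) (f : ↥F),
      Ψ ⟨q.mkQ (p.mkQ m), hm⟩ f = coeff (ex (D + f) (2 * D - f)) (ι m) := fun m hm f => rfl
  have hinj : Function.Injective Ψ := by
    rw [injective_iff_map_eq_zero]
    rintro ⟨m', hm⟩ hm0
    obtain ⟨m', rfl⟩ := Submodule.mkQ_surjective q m'
    obtain ⟨m, rfl⟩ := Submodule.mkQ_surjective p m'
    apply Subtype.ext
    show q.mkQ (p.mkQ m) = 0
    -- the support avoids the exceptional exponents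
    have hsupp : ∀ α β, coeff (ex α β) (ι m) ≠ 0 → ∃ d, α + β = d * D ∧ W T N ρ δ D d α ∧
        ¬ Ap T N ρ δ D d α := by
      intro α β h2
      obtain ⟨d, hd, hW⟩ := mem_range S m α β h2
      refine ⟨d, hd, hW, fun hA => ?_⟩
      by_cases h3 : ∀ f, IsPF T f → α ≠ D + f
      · obtain ⟨b, hb, hb0, hAb⟩ := not_max S.dat hA h3
        have hbD : b ≠ D := by
          have := V_le S.dat hb
          have := D_ge S.dat
          have := S.dat.c2
          omega
        obtain ⟨j, hj⟩ := S.surj b (Or.inl hb) hb0 hbD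
        have h4 := hm j
        have h4' : q.mkQ (p.mkQ (y j.succ.succ • m)) = 0 := h4
        rw [hzero] at h4'
        obtain ⟨m0, m1, hm01⟩ := h4'
        have hbD' : b ≤ D := AA_le S.dat (Or.inl hb)
        have h5 : (α + b) + (β + (D - b)) = (d + 1) * D := by
          rw [add_mul, one_mul]
          omega
        have h6 : coeff (ex (α + b) (β + (D - b))) (ι (y j.succ.succ • m)) = 0 := by
          rw [hm01, map_add, coeff_add, cf0 S h5 hAb, cf1 S h5 hAb, add_zero]
        rw [S.smul, hj, coeff_mono_mul, if_pos ⟨by omega, by omega⟩, Nat.add_sub_cancel,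
          Nat.add_sub_cancel] at h6
        exact h2 h6
      · push Not at h3
        obtain ⟨f, hf, rfl⟩ := h3
        have h4 : d = 3 := Ap_unique S.dat hA (Ap_pf S.dat hf)
        subst h4
        have h5 := congrFun hm0 ⟨f, (hF f).2 hf⟩
        rw [hΨ] at h5
        have h6 : β = 2 * D - f := by omega
        rw [h6] at h2
        exact h2 h5
    -- decompose
    have hdec : ∀ e ∈ (ι m).support, ∃ m', ι m' = monomial e (coeff e (ι m)) ∧
        q.mkQ (p.mkQ m') = 0 := by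
      intro e he
      rw [mem_support_iff, ← ex_eta e] at he
      obtain ⟨d, hd, hW, hA⟩ := hsupp _ _ he
      rw [← ex_eta e]
      have h2 : (∃ d', d = d' + 1 ∧ W T N ρ δ D d' (e 0)) ∨
          ∃ d' α', d = d' + 1 ∧ e 0 = α' + D ∧ W T N ρ δ D d' α' := by
        by_contra h3
        push Not at h3
        exact hA ⟨hW, h3.1, h3.2⟩
      rcases h2 with ⟨d', rfl, hW'⟩ | ⟨d', α', rfl, hα', hW'⟩
      · have h4 := W_le S.dat hW'
        rw [add_mul, one_mul] at hd
        obtain ⟨m', hm'⟩ := mono_mem S (e 0) (e 1 - D) (coeff (ex (e 0) (e 1)) (ι m))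
          ⟨d', by omega, hW'⟩
        refine ⟨y 0 • m', ?_, (hzero _).2 ⟨m', 0, by rw [smul_zero, add_zero]⟩⟩
        rw [smul0 S, hm', monomial_mul, one_mul, ex_add]
        have h5 : 0 + e 0 = e 0 := zero_add _
        have h6 : D + (e 1 - D) = e 1 := by omega
        rw [h5, h6]
      · have h4 := W_le S.dat hW'
        rw [add_mul, one_mul] at hd
        obtain ⟨m', hm'⟩ := mono_mem S α' (e 1) (coeff (ex (e 0) (e 1)) (ι m))
          ⟨d', by omega, hW'⟩
        refine ⟨y 1 • m', ?_, (hzero _).2 ⟨0, m', by rw [smul_zero, zero_add]⟩⟩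
        rw [smul1 S, hm', monomial_mul, one_mul, ex_add]
        have h5 : 0 + e 1 = e 1 := zero_add _
        have h6 : D + α' = e 0 := by omega
        rw [h5, h6]
    choose! g hg1 hg2 using hdec
    have hm2 : m = ∑ e ∈ (ι m).support, g e := by
      apply S.inj
      rw [map_sum]
      conv_lhs => rw [(ι m).as_sum]
      exact Finset.sum_congr rfl fun e he => (hg1 e he).symm
    rw [hm2, map_sum, map_sum]
    exact Finset.sum_eq_zero fun e he => hg2 e he
  have hsurj : Function.Surjective Ψ := by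
    intro w
    have hgen : ∀ f : ↥F, ∃ m, ι m = monomial (ex (D + f) (2 * D - f)) (w f) := by
      intro f
      exact mono_mem S _ _ _ ⟨3, hf3 f f.2, (Ap_pf S.dat ((hF f).1 f.2)).1⟩
    choose g hg using hgen
    have hsoc : q.mkQ (p.mkQ (∑ f : ↥F, g f)) ∈
        soc (M := (M ⧸ p) ⧸ q) k (fun j : Fin n => y j.succ.succ) := by
      intro j
      show y j.succ.succ • q.mkQ (p.mkQ (∑ f : ↥F, g f)) = 0
      rw [← map_smul, ← map_smul, Finset.smul_sum, map_sum, map_sum]
      refine Finset.sum_eq_zero fun f _ => ?_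
      obtain ⟨ha, ha0⟩ := S.aj j
      have h2 := pf_max S.dat ((hF f).1 f.2) ha ha0
      have haD := AA_le S.dat ha
      have h3 := hf3 f f.2
      have h4 := W_le S.dat h2
      obtain ⟨m', hm'⟩ := mono_mem S (f + a j.succ.succ) (2 * D - f + (D - a j.succ.succ)) (w f)
        ⟨3, by
          have := pf_lt S.dat ((hF f).1 f.2).1
          have := D_ge S.dat
          omega, h2⟩
      refine (hzero _).2 ⟨0, m', ?_⟩
      rw [smul_zero, zero_add]
      apply S.inj
      rw [S.smul, hg, smul1 S, hm', monomial_mul, monomial_mul, ex_add, ex_add]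
      have e1 : a j.succ.succ + (D + f) = D + (f + a j.succ.succ) := by ring
      have e2 : D - a j.succ.succ + (2 * D - f) = 0 + (2 * D - f + (D - a j.succ.succ)) := by ring
      rw [e1, e2]
    refine ⟨⟨_, hsoc⟩, ?_⟩
    funext f
    rw [hΨ, map_sum, coeff_sum, Finset.sum_eq_single f]
    · rw [hg, coeff_monomial, if_pos rfl]
    · intro f' _ hne
      rw [hg, coeff_monomial, if_neg]
      intro h2
      apply hne
      apply Subtype.ext
      have := (ex_inj h2).1
      omega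
    · intro h2
      exact absurd (Finset.mem_univ f) h2
  rw [(LinearEquiv.ofBijective Ψ ⟨hinj, hsurj⟩).finrank_eq, Module.finrank_pi, Fintype.card_coe]

/-- the homology of degree larger than the number of the elements -/
theorem finrank_large (z : Fin n → A) (i : ℕ) (hi : n < i) :
    Module.finrank k (Homology z M i) = 0 := by
  have h1 : Subsingleton (Homology z M i) := by
    have h2 : ∀ f : ↥(cycles z M i), f = 0 := by
      rintro ⟨f, hf⟩
      apply Subtype.ext
      funext T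
      refine (mem_cycles.1 hf).1 T ?_
      have := Finset.card_le_univ T
      rw [Fintype.card_fin] at this
      omega
    refine ⟨fun u v => ?_⟩
    obtain ⟨f, rfl⟩ := Submodule.mkQ_surjective _ u
    obtain ⟨g, rfl⟩ := Submodule.mkQ_surjective _ v
    rw [h2 f, h2 g]
  exact Module.finrank_zero_of_subsingleton

/-- **The homology of large degree vanishes.** -/
theorem finrank_above {y : Fin (n + 2) → A} {a : Fin (n + 2) → ℕ}
    {ι : M →ₗ[k] MvPolynomial (Fin 2) k} (S : Sit T c f0 N ρ δ D y a ι) (i : ℕ) (hi : n < i) :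
    Module.finrank k (Homology y M i) = 0 := by
  classical
  let p : Submodule A M := LinearMap.range (LinearMap.lsmul A M (y 0))
  have hp : ∀ m, m ∈ p ↔ ∃ m', m = y 0 • m' := by
    intro m
    rw [LinearMap.mem_range]
    exact ⟨fun ⟨y, hy⟩ => ⟨y, hy.symm⟩, fun ⟨y, hy⟩ => ⟨y, hy.symm⟩⟩
  have hker : ∀ m, p.mkQ m = 0 ↔ ∃ m', m = y 0 • m' := by
    intro m
    rw [Submodule.mkQ_apply, Submodule.Quotient.mk_eq_zero, hp]
  rw [finrank_reduce p.mkQ y (reg0 S) (Submodule.mkQ_surjective p) hker]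
  let q : Submodule A (M ⧸ p) := LinearMap.range (LinearMap.lsmul A (M ⧸ p) (y 1))
  have hq : ∀ m, m ∈ q ↔ ∃ m', m = y 1 • m' := by
    intro m
    rw [LinearMap.mem_range]
    exact ⟨fun ⟨y, hy⟩ => ⟨y, hy.symm⟩, fun ⟨y, hy⟩ => ⟨y, hy.symm⟩⟩
  have hker' : ∀ m, q.mkQ m = 0 ↔ ∃ m', m = y 1 • m' := by
    intro m
    rw [Submodule.mkQ_apply, Submodule.Quotient.mk_eq_zero, hq]
  have hreg' : ∀ m : M ⧸ p, y 1 • m = 0 → m = 0 := by
    intro m hm
    obtain ⟨m, rfl⟩ := Submodule.mkQ_surjective p m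
    rw [← map_smul, hker] at hm
    obtain ⟨m', hm'⟩ := hm
    exact (hker m).2 (reg1 S m m' hm')
  rw [finrank_reduce q.mkQ (fun j => y j.succ) hreg' (Submodule.mkQ_surjective q) hker']
  exact finrank_large _ i hi

end Pool.Agent.X317.PMC
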